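import Mathlib
import Pool.Agent.H71.Met

set_option autoImplicit false

namespace Pool.Agent.Results.MP_2b96c2_al.SepNotDisc

open Pool.Agent.H71.Met in
/-- A metabelian group with abelian centralizers of nontrivial elements that has a separating but
no discriminating family of surjections onto the free metabelian group of rank two. -/
theorem result : ∃ (T : Type) (_ : Group T), derivedSeries T 2 = ⊥ ∧
    (∀ t : T, t ≠ 1 → ∀ a ∈ Subgroup.centralizer {t}, ∀ b ∈ Subgroup.centralizer {t},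
      a * b = b * a) ∧
    (∃ 𝓕 : Set (T →* FreeGroup (Fin 2) ⧸ derivedSeries (FreeGroup (Fin 2)) 2),
      (∀ f ∈ 𝓕, Function.Surjective f) ∧ ∀ a : T, a ≠ 1 → ∃ f ∈ 𝓕, f a ≠ 1) ∧
    ¬ ∃ 𝓕 : Set (T →* FreeGroup (Fin 2) ⧸ derivedSeries (FreeGroup (Fin 2)) 2),
      (∀ f ∈ 𝓕, Function.Surjective f) ∧
        ∀ l : List T, (∀ a ∈ l, a ≠ 1) → ∃ f ∈ 𝓕, ∀ a ∈ l, f a ≠ 1 := by
  refine ⟨T, inferInstance, ?_, fun t ht a ha b hb => ?_, ⟨_, fun _ h => h, fun a ha => ?_⟩, ?_⟩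
  · rw [← Subgroup.map_eq_bot_iff_of_injective _ T.subtype_injective, eq_bot_iff, ← metab]
    exact map_derivedSeries_le_derivedSeries _ 2
  · exact ct t ht a b (Subgroup.mem_centralizer_singleton_iff.1 ha)
      (Subgroup.mem_centralizer_singleton_iff.1 hb)
  · let j := (MonoidHom.ofInjective θ_inj).trans (MulEquiv.subgroupCongr θ_range)
    by_contra! h
    exact ha (φ_sep a fun p l => j.symm.map_eq_one_iff.1
      (h (j.symm.toMonoidHom.comp (φ p l)) (j.symm.surjective.comp (φ_surj p l))))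
  · rintro ⟨𝓕, h1, h2⟩
    have h3 : ∀ ε, ι ⟨_, e_mem ε 0⟩ ≠ 1 := fun ε h =>
      e_ne (ε, 0) (congrArg (fun g : T => g.1.r.2 (ε, 0)) h)
    obtain ⟨f, hf, h4⟩ := h2 [ι ⟨_, e_mem true 0⟩, ι ⟨_, e_mem false 0⟩] (by simp [h3])
    exact nd f (h1 f hf) fun ε => h4 _ (by cases ε <;> simp)

end Pool.Agent.Results.MP_2b96c2_al.SepNotDisc
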